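import Pool.Agent.Helper60.AS.Rot

/-!
# Finite type patches on algebraic surfaces
-/

set_option autoImplicit false

namespace Pool.Agent.Results.MP_078326_gt.AlgebraicSurfaces

open Pool.Agent.Helper60.AS MvPolynomial

/-- Let `f` be a smooth immersed surface patch of finite type (a finite sum of smooth
eigenfunctions of its Laplace-Beltrami operator) lying on the irreducible algebraic surface
`F = 0` (in some Cartesian coordinate system `A`). If `F` is regular at infinity or has a transversal
isotropic point, then `f` is minimal. -/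
theorem result (U : Set (ℝ × ℝ)) (f : ℝ × ℝ → E3) (F : MvPolynomial (Fin 3) ℝ)
    (A : E3 ≃ₗᵢ[ℝ] E3) (hU : IsOpen U) (hf : ContDiffOn ℝ ((⊤ : ℕ∞) : WithTop ℕ∞) f U)
    (himm : ∀ p ∈ U, LinearIndependent ℝ ![d1 f p, d2 f p]) (hF : Irreducible F)
    (hz : ∀ p ∈ U, MvPolynomial.eval (fun i => A (f p) i) F = 0)
    (hcond : RegularAtInfinity F ∨ TransversalIsotropic F) (hft : FiniteType f U) :
    ∀ p ∈ U, lap f f p = 0 :=
  minimal_of_patch_rot A hU hf himm hF hz hcond hft

end Pool.Agent.Results.MP_078326_gt.AlgebraicSurfaces
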