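import Pool.Agent.Helper44.FT.Final
import Pool.Agent.Helper44.FT.SfRot

/-!
# Surfaces of revolution of finite type

`f (s, θ) = (r s cos θ, r s sin θ, z s)` with a unit speed profile curve `(r, z)`, `r > 0`; `cE, cF, cG` are the coefficients
of the first fundamental form and `lap` is the Laplace-Beltrami operator of `f` acting on vector valued functions, given by the
same formulas as in the frozen statement S12701 of the problem. If `f` is a finite sum of eigenfunctions of `lap f` then `f` is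
minimal, or lies on a round sphere, or lies on a circular cylinder.
-/

set_option autoImplicit false

namespace Pool.Agent.Results.MP_078326_gt.Revolution

/-- Euclidean three space. -/
abbrev E3 : Type := EuclideanSpace ℝ (Fin 3)

/-- The partial derivatives. -/
noncomputable def d1 (f : ℝ × ℝ → E3) (p : ℝ × ℝ) : E3 := fderiv ℝ f p ((1 : ℝ), (0 : ℝ))

/-- The partial derivatives. -/
noncomputable def d2 (f : ℝ × ℝ → E3) (p : ℝ × ℝ) : E3 := fderiv ℝ f p ((0 : ℝ), (1 : ℝ))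

/-- Coefficient `E` of the first fundamental form of `f`. -/
noncomputable def cE (f : ℝ × ℝ → E3) (p : ℝ × ℝ) : ℝ := inner ℝ (d1 f p) (d1 f p)

/-- Coefficient `F` of the first fundamental form of `f`. -/
noncomputable def cF (f : ℝ × ℝ → E3) (p : ℝ × ℝ) : ℝ := inner ℝ (d1 f p) (d2 f p)

/-- Coefficient `G` of the first fundamental form of `f`. -/
noncomputable def cG (f : ℝ × ℝ → E3) (p : ℝ × ℝ) : ℝ := inner ℝ (d2 f p) (d2 f p)

/-- The area density of `f`. -/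
noncomputable def area (f : ℝ × ℝ → E3) (p : ℝ × ℝ) : ℝ := Real.sqrt (cE f p * cG f p - cF f p ^ 2)

/-- The Laplace-Beltrami operator of `f` (sign convention: nonnegative spectrum), applied to the vector valued function `φ`. -/
noncomputable def lap (f φ : ℝ × ℝ → E3) (p : ℝ × ℝ) : E3 :=
  -(area f p)⁻¹ •
    (d1 (fun q => (area f q)⁻¹ • (cG f q • d1 φ q - cF f q • d2 φ q)) p +
      d2 (fun q => (area f q)⁻¹ • (cE f q • d2 φ q - cF f q • d1 φ q)) p)

/-- `f` is of finite type on `U`: a finite sum of smooth eigenfunctions of its Laplace-Beltrami operator. -/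
def FiniteType (f : ℝ × ℝ → E3) (U : Set (ℝ × ℝ)) : Prop :=
  ∃ (k : ℕ) (x : Fin k → ℝ × ℝ → E3) (lam : Fin k → ℝ),
    (∀ i, ContDiffOn ℝ ((⊤ : ℕ∞) : WithTop ℕ∞) (x i) U) ∧
    (∀ p ∈ U, f p = ∑ i, x i p) ∧
    (∀ i, ∀ p ∈ U, lap f (x i) p = lam i • x i p)

/-- `f` maps `U` into a round sphere. -/
def InSphere (f : ℝ × ℝ → E3) (U : Set (ℝ × ℝ)) : Prop :=
  ∃ (c : E3) (ρ : ℝ), 0 < ρ ∧ ∀ p ∈ U, ‖f p - c‖ = ρ

/-- `f` maps `U` into a circular cylinder. -/
def InCylinder (f : ℝ × ℝ → E3) (U : Set (ℝ × ℝ)) : Prop :=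
  ∃ (c a : E3) (ρ : ℝ), ‖a‖ = 1 ∧ 0 < ρ ∧ ∀ p ∈ U, ‖(f p - c) - inner ℝ (f p - c) a • a‖ = ρ

theorem result (I J : Set ℝ) (r z : ℝ → ℝ) (f : ℝ × ℝ → E3)
    (hI : IsOpen I) (hIc : IsConnected I) (hJ : IsOpen J) (hJc : IsConnected J)
    (hr : ContDiffOn ℝ ((⊤ : ℕ∞) : WithTop ℕ∞) r I)
    (hz : ContDiffOn ℝ ((⊤ : ℕ∞) : WithTop ℕ∞) z I)
    (hpos : ∀ s ∈ I, 0 < r s) (hun : ∀ s ∈ I, deriv r s ^ 2 + deriv z s ^ 2 = 1)
    (hf : ∀ p ∈ I ×ˢ J, f p = !₂[r p.1 * Real.cos p.2, r p.1 * Real.sin p.2, z p.1])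
    (hft : FiniteType f (I ×ˢ J)) :
    (∀ p ∈ I ×ˢ J, lap f f p = 0) ∨ InSphere f (I ×ˢ J) ∨ InCylinder f (I ×ˢ J) := by
  obtain ⟨hsm, hind⟩ := Pool.Agent.Helper44.FT.sf_rot hI hJ hr hz hpos hun hf
  exact Pool.Agent.Helper44.FT.revolution I J r z f (cE f) (cF f) (cG f) (lap f) hI hIc hJ
    hJc.nonempty hr hz hpos hun hf
    ⟨hI.prod hJ, hsm, hind, fun _ => rfl, fun _ => rfl, fun _ => rfl, fun _ _ => rfl⟩ hft

end Pool.Agent.Results.MP_078326_gt.Revolution
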