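import Pool.Agent.Helper33.TS.Glob

/-!
# Translation surfaces of finite type

`f (s, t) = α s + β t` with `α`, `β` smooth unit speed space curves with independent tangents; `cE, cF, cG` are the coefficients
of the first fundamental form and `lap` is the Laplace-Beltrami operator of `f` acting on vector valued functions, given by the
same formulas as in the frozen statement S12701 of the problem. If `f` is a finite sum of eigenfunctions of `lap f` then `f` is
minimal, or lies on a circular cylinder.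
-/

set_option autoImplicit false

namespace Pool.Agent.Results.MP_078326_gt.TranslationSurfaces

/-- Euclidean three space. -/
abbrev E3 : Type := EuclideanSpace ℝ (Fin 3)

/-- The partial derivatives. -/
noncomputable def d1 (f : ℝ × ℝ → E3) (p : ℝ × ℝ) : E3 := fderiv ℝ f p ((1 : ℝ), (0 : ℝ))

/-- The partial derivatives. -/
noncomputable def d2 (f : ℝ × ℝ → E3) (p : ℝ × ℝ) : E3 := fderiv ℝ f p ((0 : ℝ), (1 : ℝ))

/-- Coefficient `E` of the first fundamental form of `f`. -/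
noncomputable def cE (f : ℝ × ℝ → E3) (p : ℝ × ℝ) : ℝ := inner ℝ (d1 f p) (d1 f p)

/-- Coefficient `F` of the first fundamental form of `f`. -/
noncomputable def cF (f : ℝ × ℝ → E3) (p : ℝ × ℝ) : ℝ := inner ℝ (d1 f p) (d2 f p)

/-- Coefficient `G` of the first fundamental form of `f`. -/
noncomputable def cG (f : ℝ × ℝ → E3) (p : ℝ × ℝ) : ℝ := inner ℝ (d2 f p) (d2 f p)

/-- The area density of `f`. -/
noncomputable def area (f : ℝ × ℝ → E3) (p : ℝ × ℝ) : ℝ := Real.sqrt (cE f p * cG f p - cF f p ^ 2)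

/-- The Laplace-Beltrami operator of `f` (sign convention: nonnegative spectrum), applied to the vector valued function `φ`. -/
noncomputable def lap (f φ : ℝ × ℝ → E3) (p : ℝ × ℝ) : E3 :=
  -(area f p)⁻¹ •
    (d1 (fun q => (area f q)⁻¹ • (cG f q • d1 φ q - cF f q • d2 φ q)) p +
      d2 (fun q => (area f q)⁻¹ • (cE f q • d2 φ q - cF f q • d1 φ q)) p)

/-- `f` is of finite type on `U`: a finite sum of smooth eigenfunctions of its Laplace-Beltrami operator. -/
def FiniteType (f : ℝ × ℝ → E3) (U : Set (ℝ × ℝ)) : Prop :=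
  ∃ (k : ℕ) (x : Fin k → ℝ × ℝ → E3) (lam : Fin k → ℝ),
    (∀ i, ContDiffOn ℝ ((⊤ : ℕ∞) : WithTop ℕ∞) (x i) U) ∧
    (∀ p ∈ U, f p = ∑ i, x i p) ∧
    (∀ i, ∀ p ∈ U, lap f (x i) p = lam i • x i p)

/-- `f` maps `U` into a circular cylinder. -/
def InCylinder (f : ℝ × ℝ → E3) (U : Set (ℝ × ℝ)) : Prop :=
  ∃ (c a : E3) (ρ : ℝ), ‖a‖ = 1 ∧ 0 < ρ ∧ ∀ p ∈ U, ‖(f p - c) - inner ℝ (f p - c) a • a‖ = ρ

private theorem fam99 {I : Set ℝ} (hI : IsOpen I) {g : ℝ → ℝ} (hg : ContDiffOn ℝ ((⊤ : ℕ∞) : WithTop ℕ∞) g I)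
    (n : ℕ) : ContDiffOn ℝ ((⊤ : ℕ∞) : WithTop ℕ∞) (deriv^[n] g) I ∧
      ∀ s ∈ I, HasDerivAt (deriv^[n] g) (deriv^[n + 1] g s) s := by
  have key : ContDiffOn ℝ ((⊤ : ℕ∞) : WithTop ℕ∞) (deriv^[n] g) I := by
    induction n with
    | zero => exact hg
    | succ n ih =>
      rw [Function.iterate_succ_apply']
      exact ih.deriv_of_isOpen hI (by simp)
  refine ⟨key, fun s hs => ?_⟩
  rw [Function.iterate_succ_apply']
  exact ((key.contDiffAt (hI.mem_nhds hs)).differentiableAt (by simp)).hasDerivAt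

private theorem comp99 {I : Set ℝ} (hI : IsOpen I) {α : ℝ → E3} (hα : ContDiffOn ℝ ((⊤ : ℕ∞) : WithTop ℕ∞) α I)
    (i : Fin 3) {s : ℝ} (hs : s ∈ I) : deriv (fun s => α s i) s = deriv α s i := by
  have h1 : HasDerivAt α (deriv α s) s :=
    ((hα.contDiffAt (hI.mem_nhds hs)).differentiableAt (by simp)).hasDerivAt
  have h2 := ((EuclideanSpace.proj (𝕜 := ℝ) i).hasFDerivAt (x := α s)).comp_hasDerivAt s h1
  exact h2.deriv

private theorem unit99 {v : E3} (h : ‖v‖ = 1) : v 0 * v 0 + v 1 * v 1 + v 2 * v 2 = 1 := by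
  have := EuclideanSpace.real_norm_sq_eq v
  rw [h, Fin.sum_univ_three] at this
  nlinarith [this]

theorem result (I J : Set ℝ) (α β : ℝ → E3) (f : ℝ × ℝ → E3)
    (hI : IsOpen I) (hIc : IsConnected I) (hJ : IsOpen J) (hJc : IsConnected J)
    (hα : ContDiffOn ℝ ((⊤ : ℕ∞) : WithTop ℕ∞) α I) (hβ : ContDiffOn ℝ ((⊤ : ℕ∞) : WithTop ℕ∞) β J)
    (hα1 : ∀ s ∈ I, ‖deriv α s‖ = 1) (hβ1 : ∀ t ∈ J, ‖deriv β t‖ = 1)
    (hind : ∀ s ∈ I, ∀ t ∈ J, LinearIndependent ℝ ![deriv α s, deriv β t])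
    (hf : ∀ p ∈ I ×ˢ J, f p = α p.1 + β p.2)
    (hft : FiniteType f (I ×ˢ J)) :
    (∀ p ∈ I ×ˢ J, lap f f p = 0) ∨ InCylinder f (I ×ˢ J) := by
  have hU : IsOpen (I ×ˢ J) := hI.prod hJ
  have hsm : ContDiffOn ℝ ((⊤ : ℕ∞) : WithTop ℕ∞) f (I ×ˢ J) := by
    refine ContDiffOn.congr ?_ hf
    exact (hα.comp contDiff_fst.contDiffOn fun q hq => hq.1).add
      (hβ.comp contDiff_snd.contDiffOn fun q hq => hq.2)
  have hfd : ∀ p ∈ I ×ˢ J, ∀ v : ℝ × ℝ, fderiv ℝ f p v = v.1 • deriv α p.1 + v.2 • deriv β p.2 := by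
    intro p hp v
    have hev : f =ᶠ[nhds p] fun q => α q.1 + β q.2 := Filter.eventually_of_mem (hU.mem_nhds hp) hf
    have h1 : HasDerivAt α (deriv α p.1) p.1 :=
      ((hα.contDiffAt (hI.mem_nhds hp.1)).differentiableAt (by simp)).hasDerivAt
    have h2 : HasDerivAt β (deriv β p.2) p.2 :=
      ((hβ.contDiffAt (hJ.mem_nhds hp.2)).differentiableAt (by simp)).hasDerivAt
    have h3 := (h1.hasFDerivAt.comp p hasFDerivAt_fst).add (h2.hasFDerivAt.comp p hasFDerivAt_snd)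
    rw [hev.fderiv_eq]
    have h4 : fderiv ℝ (fun q : ℝ × ℝ => α q.1 + β q.2) p = _ := h3.fderiv
    rw [h4]
    simp
  have e1 : ∀ p ∈ I ×ˢ J, d1 f p = deriv α p.1 := fun p hp => by
    rw [d1, hfd p hp]; simp
  have e2 : ∀ p ∈ I ×ˢ J, d2 f p = deriv β p.2 := fun p hp => by
    rw [d2, hfd p hp]; simp
  have S : Pool.Agent.Helper44.FT.Sf (I ×ˢ J) f (cE f) (cF f) (cG f) (lap f) :=
    ⟨hU, hsm, fun p hp => by
      have := hind p.1 hp.1 p.2 hp.2
      rw [← e1 p hp, ← e2 p hp] at this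
      exact this, fun _ => rfl, fun _ => rfl, fun _ => rfl, fun _ _ => rfl⟩
  have hα' : ∀ i : Fin 3, ContDiffOn ℝ ((⊤ : ℕ∞) : WithTop ℕ∞) (fun s => α s i) I := fun i =>
    (contDiffOn_euclidean.1 hα) i
  have hβ' : ∀ i : Fin 3, ContDiffOn ℝ ((⊤ : ℕ∞) : WithTop ℕ∞) (fun s => β s i) J := fun i =>
    (contDiffOn_euclidean.1 hβ) i
  have T : Pool.Agent.Helper33.TS.Td I J f (fun i n => deriv^[n + 1] (fun s => α s i))
      (fun i n => deriv^[n + 1] (fun s => β s i)) := by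
    refine ⟨hI, hJ, fun i n s hs => (fam99 hI (hα' i) (n + 1)).2 s hs,
      fun i n s hs => (fam99 hJ (hβ' i) (n + 1)).2 s hs, ?_, ?_, ?_, ?_⟩
    · intro s hs
      simp only [Pool.Agent.Helper33.TS.dot, zero_add, Function.iterate_one, comp99 hI hα _ hs]
      exact unit99 (hα1 s hs)
    · intro s hs
      simp only [Pool.Agent.Helper33.TS.dot, zero_add, Function.iterate_one, comp99 hJ hβ _ hs]
      exact unit99 (hβ1 s hs)
    · intro p hp k
      simp only [zero_add, Function.iterate_one, comp99 hI hα _ hp.1]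
      exact congrArg (fun v : E3 => v k) (e1 p hp)
    · intro p hp k
      simp only [zero_add, Function.iterate_one, comp99 hJ hβ _ hp.2]
      exact congrArg (fun v : E3 => v k) (e2 p hp)
  exact Pool.Agent.Helper33.TS.translation T S hIc.isPreconnected hJc.isPreconnected hft

end Pool.Agent.Results.MP_078326_gt.TranslationSurfaces
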