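import Pool.Agent.Helper99.TT.Classify
import Pool.Agent.Helper99.TT.Two

/-!
# Surfaces of type at most two in Euclidean three space

`f` is a smooth immersed surface patch, `lap f` its Laplace-Beltrami operator acting on vector valued functions (the formulas of
the frozen statement S12701 of the problem). If `f` is the sum of a constant vector and of at most two eigenfunctions of `lap f`
(arbitrary real eigenvalues), or more generally if `lap f (lap f f) = a lap f f + b (f - c)`, then `f` is minimal, or lies on a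
round sphere, or lies on a circular cylinder.
-/

set_option autoImplicit false

namespace Pool.Agent.Results.MP_078326_gt.TypeTwo

/-- Euclidean three space. -/
abbrev E3 : Type := EuclideanSpace ℝ (Fin 3)

/-- The partial derivatives. -/
noncomputable def d1 (f : ℝ × ℝ → E3) (p : ℝ × ℝ) : E3 := fderiv ℝ f p ((1 : ℝ), (0 : ℝ))

/-- The partial derivatives. -/
noncomputable def d2 (f : ℝ × ℝ → E3) (p : ℝ × ℝ) : E3 := fderiv ℝ f p ((0 : ℝ), (1 : ℝ))

/-- Coefficient `E` of the first fundamental form of `f`. -/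
noncomputable def cE (f : ℝ × ℝ → E3) (p : ℝ × ℝ) : ℝ := inner ℝ (d1 f p) (d1 f p)

/-- Coefficient `F` of the first fundamental form of `f`. -/
noncomputable def cF (f : ℝ × ℝ → E3) (p : ℝ × ℝ) : ℝ := inner ℝ (d1 f p) (d2 f p)

/-- Coefficient `G` of the first fundamental form of `f`. -/
noncomputable def cG (f : ℝ × ℝ → E3) (p : ℝ × ℝ) : ℝ := inner ℝ (d2 f p) (d2 f p)

/-- The area density of `f`. -/
noncomputable def area (f : ℝ × ℝ → E3) (p : ℝ × ℝ) : ℝ := Real.sqrt (cE f p * cG f p - cF f p ^ 2)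

/-- The Laplace-Beltrami operator of `f` (sign convention: nonnegative spectrum), applied to the vector valued function `φ`. -/
noncomputable def lap (f φ : ℝ × ℝ → E3) (p : ℝ × ℝ) : E3 :=
  -(area f p)⁻¹ •
    (d1 (fun q => (area f q)⁻¹ • (cG f q • d1 φ q - cF f q • d2 φ q)) p +
      d2 (fun q => (area f q)⁻¹ • (cE f q • d2 φ q - cF f q • d1 φ q)) p)

/-- `f` is of type at most two on `U`: a constant vector plus two smooth eigenfunctions of its Laplace-Beltrami operator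
(zero summands and the eigenvalue zero are allowed). -/
def TypeAtMostTwo (f : ℝ × ℝ → E3) (U : Set (ℝ × ℝ)) : Prop :=
  ∃ (c : E3) (x y : ℝ × ℝ → E3) (lam mu : ℝ),
    ContDiffOn ℝ ((⊤ : ℕ∞) : WithTop ℕ∞) x U ∧ ContDiffOn ℝ ((⊤ : ℕ∞) : WithTop ℕ∞) y U ∧
    (∀ p ∈ U, f p = c + x p + y p) ∧
    (∀ p ∈ U, lap f x p = lam • x p) ∧ (∀ p ∈ U, lap f y p = mu • y p)

/-- `f - c` is annihilated by a quadratic polynomial of the Laplace-Beltrami operator of `f`. -/
def QuadraticType (f : ℝ × ℝ → E3) (U : Set (ℝ × ℝ)) : Prop :=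
  ∃ (a b : ℝ) (c : E3), ∀ p ∈ U, lap f (lap f f) p = a • lap f f p + b • (f p - c)

/-- `f` maps `U` into a round sphere. -/
def InSphere (f : ℝ × ℝ → E3) (U : Set (ℝ × ℝ)) : Prop :=
  ∃ (c : E3) (ρ : ℝ), 0 < ρ ∧ ∀ p ∈ U, ‖f p - c‖ = ρ

/-- `f` maps `U` into a circular cylinder. -/
def InCylinder (f : ℝ × ℝ → E3) (U : Set (ℝ × ℝ)) : Prop :=
  ∃ (c a : E3) (ρ : ℝ), ‖a‖ = 1 ∧ 0 < ρ ∧ ∀ p ∈ U, ‖(f p - c) - inner ℝ (f p - c) a • a‖ = ρ

theorem result (U : Set (ℝ × ℝ)) (f : ℝ × ℝ → E3) (hU : IsOpen U) (hUc : IsConnected U)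
    (hf : ContDiffOn ℝ ((⊤ : ℕ∞) : WithTop ℕ∞) f U)
    (himm : ∀ p ∈ U, LinearIndependent ℝ ![d1 f p, d2 f p])
    (hft : TypeAtMostTwo f U ∨ QuadraticType f U) :
    (∀ p ∈ U, lap f f p = 0) ∨ InSphere f U ∨ InCylinder f U := by
  have S : Pool.Agent.Helper44.FT.Sf U f (cE f) (cF f) (cG f) (lap f) :=
    ⟨hU, hf, himm, fun _ => rfl, fun _ => rfl, fun _ => rfl, fun _ _ => rfl⟩
  obtain ⟨p0, hp0⟩ := hUc.nonempty
  have key : QuadraticType f U := by
    rcases hft with ⟨c, x, y, lam, mu, hx, hy, h, h1, h2⟩ | h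
    · exact ⟨lam + mu, -(lam * mu), c, Pool.Agent.Helper99.TT.two_type S c x y lam mu hx hy h h1 h2⟩
    · exact h
  obtain ⟨a, b, c, h⟩ := key
  exact Pool.Agent.Helper99.TT.classify (W := ⟨U, hU⟩) S hUc.isPreconnected ⟨p0, hp0⟩ a b c h

end Pool.Agent.Results.MP_078326_gt.TypeTwo
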